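import Pool.Agent.helper5.BEY.SpecA

set_option autoImplicit false

open Complex MeasureTheory

namespace Pool.Agent.BEY

theorem MST_p34 {Q G x : ℝ} (hG : 0 < G) (hx : 1 ≤ x) (hQ : G / (2 * x) ≤ Q) :
    Q ^ (-(3 / 4) : ℝ) ≤ 2 * x * G ^ (-(3 / 4) : ℝ) := by
  have hx0 : 0 < x := by linarith
  have h0 : 0 < G / (2 * x) := by positivity
  have h1 : Q ^ (-(3 / 4) : ℝ) ≤ (G / (2 * x)) ^ (-(3 / 4) : ℝ) :=
    Real.rpow_le_rpow_of_nonpos h0 hQ (by norm_num)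
  have h2 : (G / (2 * x)) ^ (-(3 / 4) : ℝ) = (2 * x) ^ (3 / 4 : ℝ) * G ^ (-(3 / 4) : ℝ) := by
    rw [Real.div_rpow hG.le (by positivity), Real.rpow_neg (by positivity : (0 : ℝ) ≤ 2 * x),
      div_inv_eq_mul, mul_comm]
  have h3 : (2 * x) ^ (3 / 4 : ℝ) ≤ 2 * x := by
    have := Real.rpow_le_rpow_of_exponent_le (by linarith : (1 : ℝ) ≤ 2 * x)
      (by norm_num : (3 / 4 : ℝ) ≤ 1)
    rwa [Real.rpow_one] at this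
  calc _ ≤ _ := h1
    _ = _ := h2
    _ ≤ _ := mul_le_mul_of_nonneg_right h3 (Real.rpow_nonneg hG.le _)

theorem MST_p32 {Q G x : ℝ} (hG : 0 < G) (hx : 1 ≤ x) (hQ : G / (2 * x) ≤ Q) :
    Q ^ (-(3 / 2) : ℝ) * (1 + Q / G) ^ (1 / 2 : ℝ) ≤ 4 * x ^ 2 * G ^ (-(3 / 2) : ℝ) := by
  have hx0 : 0 < x := by linarith
  have h0 : 0 < G / (2 * x) := by positivity
  have hQ0 : 0 < Q := h0.trans_le hQ
  have h1 : ∀ y : ℝ, 0 < y → y ^ (-(3 / 2) : ℝ) = ((y⁻¹) ^ 3) ^ (1 / 2 : ℝ) := by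
    intro y hy
    rw [← Real.rpow_natCast (y⁻¹) 3, ← Real.rpow_mul (by positivity), Real.inv_rpow hy.le,
      ← Real.rpow_neg hy.le]
    norm_num
  have hq : Q⁻¹ ≤ 2 * x * G⁻¹ := by
    have h2 : Q⁻¹ ≤ (G / (2 * x))⁻¹ := inv_anti₀ h0 hQ
    rw [inv_div, div_eq_mul_inv] at h2
    exact h2
  have hQi : 0 < Q⁻¹ := by positivity
  have hGi : 0 < G⁻¹ := by positivity
  have h3 : (Q⁻¹) ^ 3 * (1 + Q / G) ≤ (4 * x ^ 2) ^ 2 * (G⁻¹) ^ 3 := by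
    have e1 : (Q⁻¹) ^ 3 * (1 + Q / G) = (Q⁻¹) ^ 3 + (Q⁻¹) ^ 2 * G⁻¹ := by
      field_simp
    rw [e1]
    have e2 : (Q⁻¹) ^ 3 ≤ (2 * x * G⁻¹) ^ 3 := pow_le_pow_left₀ hQi.le hq 3
    have e3 : (Q⁻¹) ^ 2 * G⁻¹ ≤ (2 * x * G⁻¹) ^ 2 * G⁻¹ :=
      mul_le_mul_of_nonneg_right (pow_le_pow_left₀ hQi.le hq 2) hGi.le
    have e4 : (2 * x * G⁻¹) ^ 3 + (2 * x * G⁻¹) ^ 2 * G⁻¹ = (8 * x ^ 3 + 4 * x ^ 2) * (G⁻¹) ^ 3 := by
      ring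
    have e5 : 8 * x ^ 3 + 4 * x ^ 2 ≤ (4 * x ^ 2) ^ 2 := by
      have f1 : x ^ 3 ≤ x ^ 4 := pow_le_pow_right₀ hx (by norm_num)
      have f2 : x ^ 2 ≤ x ^ 4 := pow_le_pow_right₀ hx (by norm_num)
      have f3 : 0 ≤ x ^ 4 := by positivity
      nlinarith
    calc _ ≤ (2 * x * G⁻¹) ^ 3 + (2 * x * G⁻¹) ^ 2 * G⁻¹ := add_le_add e2 e3
      _ = _ := e4
      _ ≤ _ := mul_le_mul_of_nonneg_right e5 (by positivity)
  rw [h1 Q hQ0, ← Real.mul_rpow (by positivity) (by positivity)]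
  calc ((Q⁻¹) ^ 3 * (1 + Q / G)) ^ (1 / 2 : ℝ) ≤ ((4 * x ^ 2) ^ 2 * (G⁻¹) ^ 3) ^ (1 / 2 : ℝ) :=
        Real.rpow_le_rpow (by positivity) h3 (by norm_num)
    _ = 4 * x ^ 2 * G ^ (-(3 / 2) : ℝ) := by
        rw [Real.mul_rpow (by positivity) (by positivity), ← h1 G hG, ← Real.sqrt_eq_rpow,
          Real.sqrt_sq (by positivity)]

/-- the inner sum -/
noncomputable def MST_f (w : ℝ → ℝ) (M G : ℝ) (W : Finset ℝ) (h : ℕ) : ℂ :=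
  ∑ n ∈ Finset.range (⌈4 * M⌉₊ + 1), ((Wz w M h ((n : ℝ) / h) : ℝ) : ℂ) *
      (((gz G ((n : ℝ) / h) : ℝ) : ℂ) * ∑ t ∈ W, E t ((n : ℝ) / h))

/-- the right side -/
noncomputable def MST_S (T G T₀ R : ℝ) : ℝ :=
  R + T ^ (1 / 2 : ℝ) * R ^ (1 / 2 : ℝ) * G ^ (-(3 / 2) : ℝ) + R * T₀ ^ (1 / 4 : ℝ) * G ^ (-(3 / 4) : ℝ)

theorem MST_X {T G T₀ R M H Q x : ℝ} (hM : 1 ≤ M) (hMT : M ≤ T) (hG : 0 < G) (hT₀ : 0 ≤ T₀)
    (hR : 0 ≤ R) (hx : 1 ≤ x) (hH : 0 < H) (hQ1 : 1 ≤ Q) (hHQ : H * Q = M / 2)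
    (hQ : G / (2 * x) ≤ Q) :
    H ^ 2 * R * Q ^ 2 / T + H * (T ^ (1 / 2 : ℝ) * R ^ (1 / 2 : ℝ) * Q ^ (-(1 / 2) : ℝ) *
        (1 + Q / G) ^ (1 / 2 : ℝ) + R * (T₀ ^ (1 / 4 : ℝ) * Q ^ (1 / 4 : ℝ) + Q ^ (1 / 2 : ℝ))) ≤
      2 * x ^ 2 * (M * MST_S T G T₀ R) := by
  have hT : 0 < T := by linarith
  have hM0 : 0 < M := by linarith
  have hQ0 : 0 < Q := by linarith
  have hHe : H = M / 2 * Q⁻¹ := by
    field_simp
    linarith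
  have hT12 : 0 ≤ T ^ (1 / 2 : ℝ) := Real.rpow_nonneg hT.le _
  have hR12 : 0 ≤ R ^ (1 / 2 : ℝ) := Real.rpow_nonneg hR _
  have hT014 : 0 ≤ T₀ ^ (1 / 4 : ℝ) := Real.rpow_nonneg hT₀ _
  have hG32 : 0 ≤ G ^ (-(3 / 2) : ℝ) := Real.rpow_nonneg hG.le _
  have hG34 : 0 ≤ G ^ (-(3 / 4) : ℝ) := Real.rpow_nonneg hG.le _
  have hx2 : 1 ≤ x ^ 2 := one_le_pow₀ hx
  have q1 : Q⁻¹ * Q ^ (-(1 / 2) : ℝ) = Q ^ (-(3 / 2) : ℝ) := by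
    rw [← Real.rpow_neg_one, ← Real.rpow_add hQ0]; norm_num
  have q2 : Q⁻¹ * Q ^ (1 / 4 : ℝ) = Q ^ (-(3 / 4) : ℝ) := by
    rw [← Real.rpow_neg_one, ← Real.rpow_add hQ0]; norm_num
  have q3 : Q⁻¹ * Q ^ (1 / 2 : ℝ) ≤ 1 := by
    have : Q⁻¹ * Q ^ (1 / 2 : ℝ) = Q ^ (-(1 / 2) : ℝ) := by
      rw [← Real.rpow_neg_one, ← Real.rpow_add hQ0]; norm_num
    rw [this]
    exact Real.rpow_le_one_of_one_le_of_nonpos hQ1 (by norm_num)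
  have p1 := MST_p32 hG hx hQ
  have p2 := MST_p34 hG hx hQ
  -- first term
  have t1 : H ^ 2 * R * Q ^ 2 / T ≤ M * R / 4 := by
    have e1 : H ^ 2 * R * Q ^ 2 = M ^ 2 * R / 4 := by
      calc H ^ 2 * R * Q ^ 2 = (H * Q) ^ 2 * R := by ring
        _ = _ := by rw [hHQ]; ring
    rw [e1, div_le_iff₀ hT]
    have : M ^ 2 * R ≤ M * R * T := by
      have : 0 ≤ M * R := by positivity
      nlinarith
    linarith
  have t2 : H * (T ^ (1 / 2 : ℝ) * R ^ (1 / 2 : ℝ) * Q ^ (-(1 / 2) : ℝ) *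
        (1 + Q / G) ^ (1 / 2 : ℝ)) ≤ 2 * x ^ 2 * (M * (T ^ (1 / 2 : ℝ) * R ^ (1 / 2 : ℝ) * G ^ (-(3 / 2) : ℝ))) := by
    calc H * (T ^ (1 / 2 : ℝ) * R ^ (1 / 2 : ℝ) * Q ^ (-(1 / 2) : ℝ) * (1 + Q / G) ^ (1 / 2 : ℝ))
        = (M / 2 * (T ^ (1 / 2 : ℝ) * R ^ (1 / 2 : ℝ))) *
            ((Q⁻¹ * Q ^ (-(1 / 2) : ℝ)) * (1 + Q / G) ^ (1 / 2 : ℝ)) := by rw [hHe]; ring
      _ ≤ (M / 2 * (T ^ (1 / 2 : ℝ) * R ^ (1 / 2 : ℝ))) * (4 * x ^ 2 * G ^ (-(3 / 2) : ℝ)) := by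
          rw [q1]
          exact mul_le_mul_of_nonneg_left p1 (by positivity)
      _ = _ := by ring
  have t3 : H * (R * (T₀ ^ (1 / 4 : ℝ) * Q ^ (1 / 4 : ℝ))) ≤
      x ^ 2 * (M * (R * T₀ ^ (1 / 4 : ℝ) * G ^ (-(3 / 4) : ℝ))) := by
    calc H * (R * (T₀ ^ (1 / 4 : ℝ) * Q ^ (1 / 4 : ℝ)))
        = (M / 2 * (R * T₀ ^ (1 / 4 : ℝ))) * (Q⁻¹ * Q ^ (1 / 4 : ℝ)) := by rw [hHe]; ring
      _ ≤ (M / 2 * (R * T₀ ^ (1 / 4 : ℝ))) * (2 * x * G ^ (-(3 / 4) : ℝ)) := by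
          rw [q2]
          exact mul_le_mul_of_nonneg_left p2 (by positivity)
      _ = x * (M * (R * T₀ ^ (1 / 4 : ℝ) * G ^ (-(3 / 4) : ℝ))) := by ring
      _ ≤ _ := by
          refine mul_le_mul_of_nonneg_right ?_ (by positivity)
          nlinarith
  have t4 : H * (R * Q ^ (1 / 2 : ℝ)) ≤ M * R / 2 := by
    calc H * (R * Q ^ (1 / 2 : ℝ)) = (M / 2 * R) * (Q⁻¹ * Q ^ (1 / 2 : ℝ)) := by rw [hHe]; ring
      _ ≤ (M / 2 * R) * 1 := mul_le_mul_of_nonneg_left q3 (by positivity)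
      _ = _ := by ring
  have t5 : M * R ≤ x ^ 2 * (M * R) := le_mul_of_one_le_left (by positivity) hx2
  have t6 : 0 ≤ x ^ 2 * (M * (R * T₀ ^ (1 / 4 : ℝ) * G ^ (-(3 / 4) : ℝ))) := by positivity
  have t7 : 0 ≤ M * R := by positivity
  calc _ = H ^ 2 * R * Q ^ 2 / T + H * (T ^ (1 / 2 : ℝ) * R ^ (1 / 2 : ℝ) * Q ^ (-(1 / 2) : ℝ) *
        (1 + Q / G) ^ (1 / 2 : ℝ)) + H * (R * (T₀ ^ (1 / 4 : ℝ) * Q ^ (1 / 4 : ℝ))) +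
        H * (R * Q ^ (1 / 2 : ℝ)) := by ring
    _ ≤ M * R / 4 + 2 * x ^ 2 * (M * (T ^ (1 / 2 : ℝ) * R ^ (1 / 2 : ℝ) * G ^ (-(3 / 2) : ℝ))) +
        x ^ 2 * (M * (R * T₀ ^ (1 / 4 : ℝ) * G ^ (-(3 / 4) : ℝ))) + M * R / 2 := by
        linarith
    _ ≤ 2 * x ^ 2 * (M * R) + 2 * x ^ 2 * (M * (T ^ (1 / 2 : ℝ) * R ^ (1 / 2 : ℝ) * G ^ (-(3 / 2) : ℝ))) +
        2 * (x ^ 2 * (M * (R * T₀ ^ (1 / 4 : ℝ) * G ^ (-(3 / 4) : ℝ)))) := by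
        linarith
    _ = _ := by unfold MST_S; ring

theorem MST_block (hETA : ETA_stmt) {K : ℝ} (hK : 1 ≤ K)
    (hAMP : ∀ (w : ℝ → ℝ) (M H₀ η G Q : ℝ), Wc 1 w → 1 ≤ H₀ →
      H₀ ≤ η → η ≤ 2 * H₀ → 0 < G → Q = M / (2 * H₀) → 1 ≤ Q →
      Am2 Q (fun y => Wz w M (2 * H₀) y * gz G y / K) ∧
      Am2 Q (fun y => H₀ * deriv (fun h => Wz w M h y) η * gz G y / K))
    {ε Cf : ℝ} (hε : 0 < ε) (hCf : 0 < Cf) (hFAR : ∀ (Q T G T₀ : ℝ) (A : ℝ → ℝ)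
      (W : Finset ℝ) (H₀ : ℕ) (α : ℕ → ℝ), 1 ≤ Q → Q ≤ T → 1 ≤ G → Am2 Q A → 1 ≤ H₀ →
      (∀ h, |α h| ≤ 1) → (∀ t ∈ W, T / 2 ≤ t ∧ t ≤ 3 * T) →
      (∀ t ∈ W, ∀ s ∈ W, t ≠ s → G ≤ |t - s|) → (∀ t ∈ W, ∀ s ∈ W, |t - s| ≤ T₀) → 0 ≤ T₀ →
      ‖∑ h ∈ Finset.Ico H₀ (2 * H₀), ((α h : ℝ) : ℂ) *
          ∑ n ∈ Finset.range (⌈8 * (H₀ : ℝ) * Q⌉₊ + 1), FW A W (fun _ => 1) ((n : ℝ) / h)‖ ≤
        Cf * T ^ ε * ((H₀ : ℝ) ^ 2 * (W.card : ℝ) * Q ^ 2 / T +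
          (H₀ : ℝ) * (T ^ (1 / 2 : ℝ) * (W.card : ℝ) ^ (1 / 2 : ℝ) * Q ^ (-(1 / 2) : ℝ) *
            (1 + Q / G) ^ (1 / 2 : ℝ) +
            (W.card : ℝ) * (T₀ ^ (1 / 4 : ℝ) * Q ^ (1 / 4 : ℝ) + Q ^ (1 / 2 : ℝ)))))
    (w : ℝ → ℝ) (T M G T₀ : ℝ) (W : Finset ℝ) (H₀ : ℕ) (hw : Wc 1 w) (hM : 1 ≤ M) (hMT : M ≤ T)
    (hG : 2 * T ^ ε ≤ G) (hH : 1 ≤ H₀) (hHJ : (H₀ : ℝ) * G ≤ M * T ^ ε) (hT₀ : 0 ≤ T₀)
    (hW : ∀ t ∈ W, T / 2 ≤ t ∧ t ≤ 3 * T) (hsep : ∀ t ∈ W, ∀ s ∈ W, t ≠ s → G ≤ |t - s|)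
    (hdm : ∀ t ∈ W, ∀ s ∈ W, |t - s| ≤ T₀) :
    ‖∑ h ∈ Finset.Ico H₀ (2 * H₀), MST_f w M G W h‖ ≤
      4 * K * Cf * (T ^ ε) ^ 3 * (M * MST_S T G T₀ (W.card : ℝ)) := by
  have hT1 : 1 ≤ T := hM.trans hMT
  have hx : 1 ≤ T ^ ε := Real.one_le_rpow hT1 hε.le
  have hG0 : 0 < G := by linarith
  have hH1 : (1 : ℝ) ≤ (H₀ : ℝ) := by exact_mod_cast hH
  have hH0 : (0 : ℝ) < (H₀ : ℝ) := by linarith
  set Q : ℝ := M / (2 * (H₀ : ℝ)) with hQd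
  have hHQ : (H₀ : ℝ) * Q = M / 2 := by
    rw [hQd]; field_simp
  have hQG : G / (2 * T ^ ε) ≤ Q := by
    rw [hQd, div_le_div_iff₀ (by positivity) (by positivity)]
    nlinarith
  have hQ1 : 1 ≤ Q := by
    refine le_trans ?_ hQG
    rw [le_div_iff₀ (by positivity)]
    linarith
  have hQT : Q ≤ T := by
    have : Q ≤ (H₀ : ℝ) * Q := le_mul_of_one_le_left (by linarith) hH1
    linarith
  have hL : 8 * (H₀ : ℝ) * Q = 4 * M := by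
    have : 8 * (H₀ : ℝ) * Q = 8 * ((H₀ : ℝ) * Q) := by ring
    rw [this, hHQ]; ring
  have hX := MST_X (T := T) (G := G) (T₀ := T₀) (R := (W.card : ℝ)) hM hMT hG0 hT₀
    (Nat.cast_nonneg _) hx hH0 hQ1 hHQ hQG
  have key : ∀ (a : ℝ → ℝ) (α : ℕ → ℝ), (∀ h, |α h| ≤ 1) → Am2 Q (fun y => a y * gz G y / K) →
      ‖∑ h ∈ Finset.Ico H₀ (2 * H₀), ((α h : ℝ) : ℂ) * ∑ n ∈ Finset.range (⌈4 * M⌉₊ + 1),
        ((a ((n : ℝ) / h) : ℝ) : ℂ) * (((gz G ((n : ℝ) / h) : ℝ) : ℂ) * ∑ t ∈ W, E t ((n : ℝ) / h))‖ ≤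
      2 * K * Cf * (T ^ ε) ^ 3 * (M * MST_S T G T₀ (W.card : ℝ)) := by
    intro a α hα ha
    have h1 := hFAR Q T G T₀ _ W H₀ α hQ1 hQT (by linarith) ha hH hα hW hsep hdm hT₀
    rw [hL] at h1
    have h2 : (∑ h ∈ Finset.Ico H₀ (2 * H₀), ((α h : ℝ) : ℂ) * ∑ n ∈ Finset.range (⌈4 * M⌉₊ + 1),
        ((a ((n : ℝ) / h) : ℝ) : ℂ) * (((gz G ((n : ℝ) / h) : ℝ) : ℂ) * ∑ t ∈ W, E t ((n : ℝ) / h))) =
        (K : ℂ) * ∑ h ∈ Finset.Ico H₀ (2 * H₀), ((α h : ℝ) : ℂ) *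
          ∑ n ∈ Finset.range (⌈4 * M⌉₊ + 1), FW (fun y => a y * gz G y / K) W (fun _ => 1) ((n : ℝ) / h) := by
      rw [Finset.mul_sum]
      refine Finset.sum_congr rfl fun h _ => ?_
      rw [mul_left_comm, Finset.mul_sum (Finset.range (⌈4 * M⌉₊ + 1)) _ (K : ℂ)]
      congr 1
      refine Finset.sum_congr rfl fun n _ => ?_
      unfold FW
      rw [Finset.mul_sum, Finset.mul_sum, Finset.mul_sum]
      refine Finset.sum_congr rfl fun t _ => ?_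
      have hKc : (K : ℂ) ≠ 0 := by
        exact_mod_cast (by linarith : K ≠ 0)
      push_cast
      field_simp
    rw [h2, norm_mul, Complex.norm_real, Real.norm_of_nonneg (by linarith)]
    calc _ ≤ K * (Cf * T ^ ε * (2 * (T ^ ε) ^ 2 * (M * MST_S T G T₀ (W.card : ℝ)))) := by
          refine mul_le_mul_of_nonneg_left (h1.trans ?_) (by linarith)
          exact mul_le_mul_of_nonneg_left hX (by positivity)
      _ = _ := by ring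
  have h3 := hETA w M (2 * K * Cf * (T ^ ε) ^ 3 * (M * MST_S T G T₀ (W.card : ℝ))) H₀
    (⌈4 * M⌉₊ + 1) (fun y => ((gz G y : ℝ) : ℂ) * ∑ t ∈ W, E t y) hw (by linarith) hH
    (fun α hα => key (fun y => Wz w M (2 * (H₀ : ℝ)) y) α hα
      (hAMP w M H₀ H₀ G Q hw hH1 le_rfl (by linarith) hG0 rfl hQ1).1)
    (fun α η hα hη1 hη2 => key (fun y => (H₀ : ℝ) * deriv (fun x => Wz w M x y) η) α hα
      (hAMP w M H₀ η G Q hw hH1 hη1 hη2 hG0 rfl hQ1).2)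
  calc _ ≤ _ := h3
    _ = _ := by ring

theorem MST_dyad (f : ℕ → ℂ) (B : ℝ) (I : ℕ)
    (h : ∀ i, i < I → ‖∑ h ∈ Finset.Ico (2 ^ i) (2 * 2 ^ i), f h‖ ≤ B) :
    ‖∑ h ∈ Finset.Ico 1 (2 ^ I), f h‖ ≤ I * B := by
  induction I with
  | zero => simp
  | succ I ih =>
    have h1 := ih (fun i hi => h i (by omega))
    have h2 := h I (by omega)
    have h3 : (∑ h ∈ Finset.Ico 1 (2 ^ (I + 1)), f h) =
        (∑ h ∈ Finset.Ico 1 (2 ^ I), f h) + ∑ h ∈ Finset.Ico (2 ^ I) (2 * 2 ^ I), f h := by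
      rw [pow_succ', Finset.sum_Ico_consecutive]
      · exact Nat.one_le_two_pow
      · omega
    rw [h3]
    push_cast
    calc _ ≤ _ := norm_add_le _ _
      _ ≤ I * B + B := add_le_add h1 h2
      _ = _ := by ring

theorem MST (hGMS : GMS_stmt) (hTAI : TAI_stmt) (hETA : ETA_stmt) (hAMP : AMP_stmt) (hFAR : FAR_stmt) : MST_stmt := by
  intro ε hε
  obtain ⟨K, hK, hAMP'⟩ := hAMP
  obtain ⟨Cf, hCf, hFAR'⟩ := hFAR (ε / 4) (by positivity)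
  obtain ⟨Ct, hCt, hTAI'⟩ := hTAI (ε / 4) (by positivity)
  have hD : 0 < 1 + 2 / (ε / 4) := by positivity
  refine ⟨4 + 16 * (1 + 2 / (ε / 4)) * K * Cf + 4 * Ct, by positivity, ?_⟩
  intro w T M G T₀ W hw hM hMT hG hT₀ hW hsep hdm
  have hT1 : 1 ≤ T := hM.trans hMT
  have hT0 : 0 < T := by linarith
  set x : ℝ := T ^ (ε / 4) with hxd
  have hx : 1 ≤ x := Real.one_le_rpow hT1 (by positivity)
  have hx4 : x ^ 4 = T ^ ε := by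
    rw [hxd, ← Real.rpow_natCast, ← Real.rpow_mul hT0.le]
    congr 1
    push_cast
    ring
  have hGx : 2 * x ≤ G := by
    refine le_trans ?_ hG
    rw [← hx4]
    have : x ≤ x ^ 4 := le_self_pow₀ hx (by norm_num)
    linarith
  have hG0 : 0 < G := by linarith
  have hG1 : 1 ≤ G := by linarith
  set R : ℝ := (W.card : ℝ) with hRd
  have hR : 0 ≤ R := Nat.cast_nonneg _
  have hS : R ≤ MST_S T G T₀ R := by
    unfold MST_S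
    have h1 : 0 ≤ T ^ (1 / 2 : ℝ) * R ^ (1 / 2 : ℝ) * G ^ (-(3 / 2) : ℝ) := by positivity
    have h2 : 0 ≤ R * T₀ ^ (1 / 4 : ℝ) * G ^ (-(3 / 4) : ℝ) := by positivity
    linarith
  have hS0 : 0 ≤ MST_S T G T₀ R := hR.trans hS
  -- the number of blocks
  have hex : ∃ I : ℕ, M * x / G ≤ 2 ^ I := by
    obtain ⟨I, hI⟩ := pow_unbounded_of_one_lt (M * x / G) (by norm_num : (1 : ℝ) < 2)
    exact ⟨I, hI.le⟩
  classical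
  set I := Nat.find hex with hId
  have hI : M * x / G ≤ 2 ^ I := Nat.find_spec hex
  have hIm : ∀ i, i < I → (2 : ℝ) ^ i * G ≤ M * x := by
    intro i hi
    have h1 := Nat.find_min hex hi
    rw [not_le, lt_div_iff₀ hG0] at h1
    exact h1.le
  have hI2M : ∀ i, i < I → (2 : ℝ) * 2 ^ i ≤ M := by
    intro i hi
    have h1 := hIm i hi
    have h2 : (2 : ℝ) ^ i * (2 * x) ≤ M * x := le_trans (mul_le_mul_of_nonneg_left hGx (by positivity)) h1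
    have h3 : (2 * 2 ^ i) * x ≤ M * x := by linarith
    exact le_of_mul_le_mul_right h3 (by linarith)
  have hIM : 2 ^ I ≤ ⌊M⌋₊ + 1 := by
    rcases Nat.eq_zero_or_pos I with h0 | h0
    · rw [h0]; simp
    · have h1 := hI2M (I - 1) (by omega)
      have h2 : (2 : ℝ) ^ I ≤ M := by
        have : (2 : ℝ) ^ I = 2 * 2 ^ (I - 1) := by
          rw [← pow_succ']; congr 1; omega
        rw [this]; exact h1
      have h3 : 2 ^ I ≤ ⌊M⌋₊ := by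
        apply Nat.le_floor
        push_cast
        exact h2
      omega
  have hIc : (I : ℝ) ≤ (1 + 2 / (ε / 4)) * x := by
    rcases Nat.eq_zero_or_pos I with h0 | h0
    · rw [h0]; simp; positivity
    · have h1 := hI2M (I - 1) (by omega)
      have h2 : (2 : ℝ) ^ (I - 1) ≤ T := by
        have : (0 : ℝ) < 2 ^ (I - 1) := by positivity
        linarith
      have h3 : ((I - 1 : ℕ) : ℝ) * Real.log 2 ≤ Real.log T := by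
        rw [← Real.log_pow]
        exact Real.log_le_log (by positivity) h2
      have h4 : Real.log T ≤ x / (ε / 4) := Real.log_le_rpow_div hT0.le (by positivity)
      have h5 : (1 / 2 : ℝ) ≤ Real.log 2 := by
        have := Real.log_two_gt_d9
        linarith
      have h6 : ((I - 1 : ℕ) : ℝ) * (1 / 2) ≤ ((I - 1 : ℕ) : ℝ) * Real.log 2 :=
        mul_le_mul_of_nonneg_left h5 (Nat.cast_nonneg _)
      have h7 : ((I - 1 : ℕ) : ℝ) = (I : ℝ) - 1 := by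
        rw [Nat.cast_sub (by omega)]; simp
      rw [h7] at h3 h6
      have h8 : x / (ε / 4) = (1 / (ε / 4)) * x := by ring
      have h9 : (1 + 2 / (ε / 4)) * x = x + 2 * ((1 / (ε / 4)) * x) := by ring
      rw [h9]
      rw [h8] at h4
      linarith
  -- the blocks
  have hblk : ∀ i, i < I → ‖∑ h ∈ Finset.Ico (2 ^ i) (2 * 2 ^ i), MST_f w M G W h‖ ≤
      4 * K * Cf * x ^ 3 * (M * MST_S T G T₀ R) := by
    intro i hi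
    refine MST_block hETA hK hAMP' (by positivity) hCf hFAR' w T M G T₀ W (2 ^ i) hw hM hMT hGx
      Nat.one_le_two_pow ?_ hT₀ hW hsep hdm
    push_cast
    exact hIm i hi
  have h1 := MST_dyad (MST_f w M G W) _ I hblk
  have h2 := hTAI' w T M G (2 ^ I) W hw hM hMT hG1 Nat.one_le_two_pow (by push_cast; exact hI)
  have h3 := hGMS w M G W hw hM hG0
  have h4 : (∑ h ∈ Finset.Ico 1 (⌊M⌋₊ + 1), ∑ n ∈ Finset.range (⌈4 * M⌉₊ + 1),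
      ((Wz w M h ((n : ℝ) / h) : ℝ) : ℂ) * (((gz G ((n : ℝ) / h) : ℝ) : ℂ) * ∑ t ∈ W, E t ((n : ℝ) / h))) =
      (∑ h ∈ Finset.Ico 1 (2 ^ I), MST_f w M G W h) + ∑ h ∈ Finset.Ico (2 ^ I) (⌊M⌋₊ + 1),
        ∑ n ∈ Finset.range (⌈4 * M⌉₊ + 1),
      ((Wz w M h ((n : ℝ) / h) : ℝ) : ℂ) * (((gz G ((n : ℝ) / h) : ℝ) : ℂ) * ∑ t ∈ W, E t ((n : ℝ) / h)) := by
    unfold MST_f
    rw [Finset.sum_Ico_consecutive _ Nat.one_le_two_pow hIM]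
  rw [h4] at h3
  have h5 : (I : ℝ) * (4 * K * Cf * x ^ 3 * (M * MST_S T G T₀ R)) ≤
      (1 + 2 / (ε / 4)) * x * (4 * K * Cf * x ^ 3 * (M * MST_S T G T₀ R)) :=
    mul_le_mul_of_nonneg_right hIc (by positivity)
  have hMR : M * R ≤ x ^ 4 * (M * MST_S T G T₀ R) := by
    have a1 : M * R ≤ M * MST_S T G T₀ R := mul_le_mul_of_nonneg_left hS (by linarith)
    have a2 : M * MST_S T G T₀ R ≤ x ^ 4 * (M * MST_S T G T₀ R) :=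
      le_mul_of_one_le_left (by positivity) (one_le_pow₀ hx)
    linarith
  have hRR : R ≤ x ^ 4 * (M * MST_S T G T₀ R) := by
    have : R ≤ M * R := le_mul_of_one_le_left hR hM
    linarith
  calc ∑ t ∈ W, FG w M G t ≤ 4 * (M * R) + 4 * ((1 + 2 / (ε / 4)) * x *
        (4 * K * Cf * x ^ 3 * (M * MST_S T G T₀ R)) + Ct * R) := by
        refine h3.trans ?_
        have h6 := norm_add_le (∑ h ∈ Finset.Ico 1 (2 ^ I), MST_f w M G W h)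
          (∑ h ∈ Finset.Ico (2 ^ I) (⌊M⌋₊ + 1), ∑ n ∈ Finset.range (⌈4 * M⌉₊ + 1),
            ((Wz w M h ((n : ℝ) / h) : ℝ) : ℂ) * (((gz G ((n : ℝ) / h) : ℝ) : ℂ) *
              ∑ t ∈ W, E t ((n : ℝ) / h)))
        linarith
    _ ≤ 4 * (x ^ 4 * (M * MST_S T G T₀ R)) + 4 * ((1 + 2 / (ε / 4)) * x *
        (4 * K * Cf * x ^ 3 * (M * MST_S T G T₀ R)) + Ct * (x ^ 4 * (M * MST_S T G T₀ R))) := by
        have h7 : Ct * R ≤ Ct * (x ^ 4 * (M * MST_S T G T₀ R)) := mul_le_mul_of_nonneg_left hRR hCt.le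
        linarith
    _ = (4 + 16 * (1 + 2 / (ε / 4)) * K * Cf + 4 * Ct) * x ^ 4 * M * MST_S T G T₀ R := by ring
    _ = _ := by rw [hx4]; rfl

end Pool.Agent.BEY
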